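import Pool.Agent.X315.LS.Gen

set_option autoImplicit false

/-!
# Surgeries on the lifts of the circle around the third column of P(3, -3, 1)
-/

namespace Pool.Agent.X315.LS

open Pool.Agent.TH821.Cyc Pool.Agent.TH821.Hex

variable {G : Type*} [Group G] {n : ℕ}

section alg
variable {H : Type*} [Group H] {x v F x' v' F' : H}

/-- `x' x' v' F'⁻¹ = x x F⁻¹`. -/
theorem relD_aux (A : x' * x' * (v' * v') = x * x * (v * v) * (x * v)⁻¹)
    (B : v'⁻¹ * F'⁻¹ = x * (v⁻¹ * F⁻¹)) : x' * x' * v' * F'⁻¹ = x * x * F⁻¹ := by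
  calc x' * x' * v' * F'⁻¹ = (x' * x' * (v' * v')) * (v'⁻¹ * F'⁻¹) := by group
    _ = (x * x * (v * v) * (x * v)⁻¹) * (x * (v⁻¹ * F⁻¹)) := by rw [A, B]
    _ = x * x * F⁻¹ := by group

end alg

/-- Homomorphisms from the kernel to a left-ordered group that satisfy the filling relations
are trivial. -/
theorem chain_hom (hn : 0 < n) {s X V F : G} (hs : s ^ n = 1)
    (hgen : ∀ K : Subgroup G, s ∈ K → X ∈ K → V ∈ K → F ∈ K → K = ⊤)
    (d : G →* Multiplicative (ZMod n)) (ds : d s = Multiplicative.ofAdd 1) (dX : d X = 1)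
    (dV : d V = 1) (dF : d F = 1) (hF : F * (X * V) = (X * V) * F)
    (A : s * (X * X * (V * V)) * s⁻¹ = X * X * (V * V) * (X * V)⁻¹)
    (B : s * (V⁻¹ * F⁻¹) * s⁻¹ = X * (V⁻¹ * F⁻¹))
    {H : Type*} [Group H] [LinearOrder H] (hinv : ∀ a b c : H, a ≤ b ↔ c * a ≤ c * b)
    (φ : d.ker →* H) (p q : ZMod n → ℤ) (hq : ∀ i, q i ≠ 0)
    (hφ : ∀ i, φ (ck d s i ⟨F, dF⟩) ^ q i = ((φ (ck d s i ⟨X, dX⟩) * φ (ck d s i ⟨V, dV⟩)) ^ p i))
    (g : d.ker) : φ g = 1 := by
  set x : ZMod n → H := fun i => φ (ck d s i ⟨X, dX⟩) with hx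
  set v : ZMod n → H := fun i => φ (ck d s i ⟨V, dV⟩) with hv
  set u : ZMod n → H := fun i => φ (ck d s i ⟨F, dF⟩) with hu
  have hcomm : ∀ i, u i * (x i * v i) = (x i * v i) * u i := by
    intro i
    simp only [hx, hv, hu, ← map_mul]
    congr 2
    exact Subtype.ext hF
  have A' : ∀ i, x (i + 1) * x (i + 1) * (v (i + 1) * v (i + 1)) =
      x i * x i * (v i * v i) * (x i * v i)⁻¹ := by
    intro i
    have := ck_shift hn hs d i (⟨X, dX⟩ * ⟨X, dX⟩ * (⟨V, dV⟩ * ⟨V, dV⟩))
      (⟨X, dX⟩ * ⟨X, dX⟩ * (⟨V, dV⟩ * ⟨V, dV⟩) * (⟨X, dX⟩ * ⟨V, dV⟩)⁻¹) A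
    have := congrArg φ this
    simpa only [map_mul, map_inv] using this
  have B' : ∀ i, (v (i + 1))⁻¹ * (u (i + 1))⁻¹ = x i * ((v i)⁻¹ * (u i)⁻¹) := by
    intro i
    have := ck_shift hn hs d i (⟨V, dV⟩⁻¹ * ⟨F, dF⟩⁻¹) (⟨X, dX⟩ * (⟨V, dV⟩⁻¹ * ⟨F, dF⟩⁻¹)) B
    have := congrArg φ this
    simpa only [map_mul, map_inv] using this
  -- the chain system
  set c : ZMod n → H := fun i => x i * (x i * v i) * (x i)⁻¹ with hc
  set e : ZMod n → H := fun i => x i * u i * (x i)⁻¹ with he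
  set D : ZMod n → H := fun i => c i * (e i)⁻¹ * x i with hD
  set f : ZMod n → H := fun i => e i * (c i)⁻¹ with hf
  have hec : ∀ i, e i * c i = c i * e i := by
    intro i
    calc e i * c i = x i * (u i * (x i * v i)) * (x i)⁻¹ := by simp only [he, hc]; group
      _ = c i * e i := by rw [hcomm]; simp only [he, hc]; group
  have hDc : ∀ i, (D i)⁻¹ * c i * D i = x i * v i := by
    intro i
    calc (D i)⁻¹ * c i * D i = (x i)⁻¹ * ((e i * c i) * (e i)⁻¹) * x i := by
          simp only [hD]; group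
      _ = (x i)⁻¹ * c i * x i := by rw [hec]; group
      _ = _ := by simp only [hc]; group
  have RA : ∀ i, c i = c (i + 1) * ((D (i + 1))⁻¹ * c (i + 1) * D (i + 1)) := by
    intro i
    rw [hDc]
    calc c i = x i * x i * (v i * v i) * (x i * v i)⁻¹ := by simp only [hc]; group
      _ = x (i + 1) * x (i + 1) * (v (i + 1) * v (i + 1)) := (A' i).symm
      _ = _ := by simp only [hc]; group
  have RB : ∀ i, D (i + 1) = f i * D i * (c i)⁻¹ * D i := by
    intro i
    calc D (i + 1) = x (i + 1) * x (i + 1) * v (i + 1) * (u (i + 1))⁻¹ := by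
          simp only [hD, hc, he]; group
      _ = x i * x i * (u i)⁻¹ := relD_aux (A' i) (B' i)
      _ = f i * D i * (c i)⁻¹ * D i := by
          have h1 : f i * D i * (c i)⁻¹ * D i = x i * (e i)⁻¹ * x i := by
            simp only [hD, hf]; group
          rw [h1]; simp only [he]; group
  have RF : ∀ i, f i ^ q i = c i ^ (p i - q i) := by
    intro i
    have h1 : f i ^ q i = e i ^ q i * c i ^ (-q i) := by
      have h2 : Commute (e i) (c i)⁻¹ := Commute.inv_right (hec i)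
      rw [show f i = e i * (c i)⁻¹ from rfl, h2.mul_zpow, inv_zpow, zpow_neg]
    have h3 : e i ^ q i = c i ^ (p i) := by
      simp only [he, hc]
      rw [conj_zpow, conj_zpow]
      exact congrArg (fun z => x i * z * (x i)⁻¹) (hφ i)
    rw [h1, h3, ← zpow_add, sub_eq_add_neg]
  have triv := fun i => Pool.Agent.TH821.Chain.rel_trivial hinv hn RA RB hq RF i
  have hfi : ∀ i, f i = 1 := by
    intro i
    apply eq_one_of_zpow hinv (hq i)
    rw [RF, (triv i).1, one_zpow]
  have hei : ∀ i, e i = 1 := by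
    intro i
    have h1 : e i = f i * c i := by simp only [hf]; group
    rw [h1, hfi, (triv i).1, one_mul]
  have hui : ∀ i, u i = 1 := by
    intro i
    have h1 : u i = (x i)⁻¹ * e i * x i := by simp only [he]; group
    rw [h1, hei]; group
  have hxi : ∀ i, x i = 1 := by
    intro i
    have h1 : x i = e i * (c i)⁻¹ * D i := by simp only [hD]; group
    rw [h1, hei, (triv i).1, (triv i).2]; group
  have hvi : ∀ i, v i = 1 := by
    intro i
    have h1 : v i = (x i)⁻¹ * ((x i)⁻¹ * c i * x i) := by simp only [hc]; group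
    rw [h1, (triv i).1, hxi]; group
  refine hom_trivial_of hn hs (ι := Fin 3) ![X, V, F] ?_ d ds ?_ φ ?_ g
  · intro K h1 h2
    exact hgen K h1 (h2 0) (h2 1) (h2 2)
  · intro t
    fin_cases t
    · exact dX
    · exact dV
    · exact dF
  · intro t i
    fin_cases t
    · exact hxi i
    · exact hvi i
    · exact hui i

end Pool.Agent.X315.LS
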