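import Pool.Agent.TH821.NegGroup

set_option autoImplicit false

/-!
# Generators of the kernel of a homomorphism to a finite cyclic group

`G` is generated by `s` and a family `T`, `d : G → Z/n` maps `s` to `1` and `T` to `0`, and
`s ^ n = 1`.  Then the kernel of `d` is generated by the conjugates of `T` by powers of `s`.
-/

namespace Pool.Agent.X315.LS

open Pool.Agent.TH821.Cyc Pool.Agent.TH821.Hex

variable {G : Type*} [Group G] {n : ℕ} {ι : Type*}

/-- The subgroup generated by the conjugates of `T` by powers of `s`. -/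
def NT (n : ℕ) (s : G) (T : ι → G) : Subgroup G :=
  Subgroup.closure (Set.range fun w : ZMod n × ι => cj s (T w.2) w.1)

theorem NT_conj (hn : 0 < n) {s : G} (hs : s ^ n = 1) (T : ι → G) {x : G} (hx : x ∈ NT n s T) :
    s * x * s⁻¹ ∈ NT n s T := by
  induction hx using Subgroup.closure_induction with
  | mem x hx =>
    obtain ⟨⟨i, t⟩, rfl⟩ := hx
    have h := cj_succ hn hs (T t) i
    show s * cj s (T t) i * s⁻¹ ∈ _
    rw [← h]
    exact Subgroup.subset_closure ⟨(i + 1, t), rfl⟩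
  | one => simpa using Subgroup.one_mem _
  | mul x y _ _ hx hy =>
    have : s * (x * y) * s⁻¹ = (s * x * s⁻¹) * (s * y * s⁻¹) := by group
    rw [this]; exact mul_mem hx hy
  | inv x _ hx =>
    have : s * x⁻¹ * s⁻¹ = (s * x * s⁻¹)⁻¹ := by group
    rw [this]; exact inv_mem hx

theorem NT_conj_pow (hn : 0 < n) {s : G} (hs : s ^ n = 1) (T : ι → G) {x : G}
    (hx : x ∈ NT n s T) (m : ℕ) : s ^ m * x * (s ^ m)⁻¹ ∈ NT n s T := by
  induction m with
  | zero => simpa using hx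
  | succ m ih =>
    have : s ^ (m + 1) * x * (s ^ (m + 1))⁻¹ = s * (s ^ m * x * (s ^ m)⁻¹) * s⁻¹ := by
      rw [pow_succ']; group
    rw [this]; exact NT_conj hn hs T ih

/-- The subgroup `N ⟨s⟩`. -/
def NTS (hn : 0 < n) {s : G} (hs : s ^ n = 1) (T : ι → G) : Subgroup G where
  carrier := {g | ∃ x ∈ NT n s T, ∃ m : ℕ, g = x * s ^ m}
  mul_mem' := by
    rintro _ _ ⟨x, hx, m, rfl⟩ ⟨y, hy, l, rfl⟩
    refine ⟨x * (s ^ m * y * (s ^ m)⁻¹), mul_mem hx (NT_conj_pow hn hs T hy m), m + l, ?_⟩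
    rw [pow_add]; group
  one_mem' := ⟨1, one_mem _, 0, by simp⟩
  inv_mem' := by
    rintro _ ⟨x, hx, m, rfl⟩
    refine ⟨s ^ (m * (n - 1)) * x⁻¹ * (s ^ (m * (n - 1)))⁻¹,
      NT_conj_pow hn hs T (inv_mem hx) _, m * (n - 1), ?_⟩
    rw [mul_inv_rev, inv_eq_pow hn hs m]; group

theorem ker_le_NT (hn : 0 < n) {s : G} (hs : s ^ n = 1) (T : ι → G)
    (hgen : ∀ K : Subgroup G, s ∈ K → (∀ t, T t ∈ K) → K = ⊤)
    (d : G →* Multiplicative (ZMod n)) (ds : d s = Multiplicative.ofAdd 1)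
    (dT : ∀ t, d (T t) = 1) {g : G} (hg : d g = 1) : g ∈ NT n s T := by
  have h1 : NTS hn hs T = ⊤ := by
    apply hgen
    · exact ⟨1, one_mem _, 1, by simp⟩
    · intro t
      exact ⟨T t, Subgroup.subset_closure ⟨(0, t), cj_zero hn s (T t)⟩, 0, by simp⟩
  have h2 : NT n s T ≤ d.ker := by
    unfold NT
    rw [Subgroup.closure_le]
    rintro _ ⟨⟨i, t⟩, rfl⟩
    exact cj_mem d s (dT t) i
  have h3 : g ∈ NTS hn hs T := by rw [h1]; trivial
  obtain ⟨x, hx, m, rfl⟩ := h3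
  have h4 : d x = 1 := h2 hx
  rw [map_mul, h4, one_mul, map_pow, ds, ← ofAdd_nsmul] at hg
  have h5 : (m : ZMod n) = 0 := by
    have := Multiplicative.ofAdd.injective (hg.trans ofAdd_zero.symm)
    simpa using this
  rw [ZMod.natCast_eq_zero_iff] at h5
  obtain ⟨l, rfl⟩ := h5
  rw [pow_mul, hs, one_pow, mul_one]
  exact hx

/-- A homomorphism from the kernel that kills all conjugates of the family `T` is trivial. -/
theorem hom_trivial_of (hn : 0 < n) {s : G} (hs : s ^ n = 1) (T : ι → G)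
    (hgen : ∀ K : Subgroup G, s ∈ K → (∀ t, T t ∈ K) → K = ⊤)
    (d : G →* Multiplicative (ZMod n)) (ds : d s = Multiplicative.ofAdd 1)
    (dT : ∀ t, d (T t) = 1) {H : Type*} [Group H] (φ : d.ker →* H)
    (h : ∀ t (i : ZMod n), φ (ck d s i ⟨T t, dT t⟩) = 1) (g : d.ker) : φ g = 1 := by
  have h1 : NT n s T ≤ φ.ker.map d.ker.subtype := by
    unfold NT
    rw [Subgroup.closure_le]
    rintro _ ⟨⟨i, t⟩, rfl⟩
    exact ⟨ck d s i ⟨T t, dT t⟩, h t i, rfl⟩
  obtain ⟨g', hg', hgg⟩ := h1 (ker_le_NT hn hs T hgen d ds dT g.2)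
  have : g' = g := Subtype.ext hgg
  rw [← this]; exact hg'

theorem ck_shift (hn : 0 < n) {s : G} (hs : s ^ n = 1) (d : G →* Multiplicative (ZMod n))
    (i : ZMod n) (x y : d.ker) (h : s * x.1 * s⁻¹ = y.1) :
    ck d s (i + 1) x = ck d s i y := by
  apply Subtype.ext
  show cj s x.1 (i + 1) = cj s y.1 i
  rw [cj_shift hn hs, h]

/-- Left-ordered groups are torsion-free. -/
theorem eq_one_of_zpow {H : Type*} [Group H] [LinearOrder H]
    (hinv : ∀ a b c : H, a ≤ b ↔ c * a ≤ c * b) {g : H} {q : ℤ} (hq : q ≠ 0)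
    (h : g ^ q = 1) : g = 1 := by
  apply Pool.Agent.W705.Borr.eq_one_of_act hinv
  intro v
  refine Pool.Agent.TH821.Chain.fix_of_zpow hinv (x := 1) (p := 0) hq ?_ ?_
  · rw [h, one_zpow]
  · exact Pool.Agent.W705.Borr.act_one hinv v

end Pool.Agent.X315.LS
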