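import Pool.Agent.X315.LS.Gen

set_option autoImplicit false

/-!
# Surgeries on the lifts of the circles around the three columns of P(1, 1, 1)
-/

namespace Pool.Agent.X315.LS

open Pool.Agent.TH821.Cyc Pool.Agent.TH821.Hex

variable {G : Type*} [Group G] {n : ℕ}

/-- Homomorphisms from the kernel to a left-ordered group that satisfy the filling relations
are trivial, for `n ≤ 5`. -/
theorem hex_hom (hn : 0 < n) (hn5 : n ≤ 5) {s X V W F E K : G} (hs : s ^ n = 1)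
    (hgen : ∀ L : Subgroup G, s ∈ L → X ∈ L → V ∈ L → F ∈ L → E ∈ L → K ∈ L → L = ⊤)
    (d : G →* Multiplicative (ZMod n)) (ds : d s = Multiplicative.ofAdd 1) (dX : d X = 1)
    (dV : d V = 1) (dW : d W = 1) (dF : d F = 1) (dE : d E = 1) (dK : d K = 1)
    (hp : X * V * W = 1) (hF : X * F = F * X) (hE : V * E = E * V) (hK : W * K = K * W)
    (A : s * (F * X * E⁻¹) * s⁻¹ = F * X * E⁻¹ * W)
    (B : s * (E * V * K⁻¹) * s⁻¹ = X * (E * V * K⁻¹))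
    {H : Type*} [Group H] [LinearOrder H] (hinv : ∀ a b c : H, a ≤ b ↔ c * a ≤ c * b)
    (φ : d.ker →* H) (a b : Fin 3 → ZMod n → ℕ) (hb : ∀ j i, 0 < b j i)
    (h0 : ∀ i, φ (ck d s i ⟨F, dF⟩) ^ b 0 i = φ (ck d s i ⟨X, dX⟩) ^ a 0 i)
    (h1 : ∀ i, φ (ck d s i ⟨E, dE⟩) ^ b 1 i = φ (ck d s i ⟨V, dV⟩) ^ a 1 i)
    (h2 : ∀ i, φ (ck d s i ⟨K, dK⟩) ^ b 2 i = φ (ck d s i ⟨W, dW⟩) ^ a 2 i)
    (g : d.ker) : φ g = 1 := by
  have comm : ∀ {Y Z : G} (dY : d Y = 1) (dZ : d Z = 1) (_ : Y * Z = Z * Y) (i : ZMod n),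
      φ (ck d s i ⟨Y, dY⟩) * φ (ck d s i ⟨Z, dZ⟩) =
        φ (ck d s i ⟨Z, dZ⟩) * φ (ck d s i ⟨Y, dY⟩) := by
    intro Y Z dY dZ h i
    simp only [← map_mul]
    congr 2
    exact Subtype.ext h
  have R : Pool.Agent.TH821.Hex.Rel (fun i => φ (ck d s i ⟨X, dX⟩))
      (fun i => φ (ck d s i ⟨V, dV⟩)) (fun i => φ (ck d s i ⟨W, dW⟩))
      (fun i => φ (ck d s i ⟨F, dF⟩)) (fun i => φ (ck d s i ⟨E, dE⟩))
      (fun i => φ (ck d s i ⟨K, dK⟩)) a b := by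
    refine ⟨?_, ?_, ?_, ?_, ?_, ?_⟩
    · intro i
      show φ (ck d s i ⟨X, dX⟩) * φ (ck d s i ⟨V, dV⟩) * φ (ck d s i ⟨W, dW⟩) = 1
      rw [← map_mul, ← map_mul, ← map_mul, ← map_mul]
      have : (⟨X, dX⟩ * ⟨V, dV⟩ * ⟨W, dW⟩ : d.ker) = 1 := Subtype.ext hp
      rw [this, map_one, map_one]
    · intro i; exact ⟨comm dX dF hF i, hb 0 i, h0 i⟩
    · intro i; exact ⟨comm dV dE hE i, hb 1 i, h1 i⟩
    · intro i; exact ⟨comm dW dK hK i, hb 2 i, h2 i⟩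
    · intro i
      have := ck_shift hn hs d i (⟨F, dF⟩ * ⟨X, dX⟩ * ⟨E, dE⟩⁻¹)
        (⟨F, dF⟩ * ⟨X, dX⟩ * ⟨E, dE⟩⁻¹ * ⟨W, dW⟩) A
      have := congrArg φ this
      simpa only [map_mul, map_inv] using this
    · intro i
      have := ck_shift hn hs d i (⟨E, dE⟩ * ⟨V, dV⟩ * ⟨K, dK⟩⁻¹)
        (⟨X, dX⟩ * (⟨E, dE⟩ * ⟨V, dV⟩ * ⟨K, dK⟩⁻¹)) B
      have := congrArg φ this
      simpa only [map_mul, map_inv] using this
  have triv := fun i => Pool.Agent.TH821.Hex.rel_trivial hinv hn hn5 R i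
  have hw : ∀ i, φ (ck d s i ⟨W, dW⟩) = 1 := by
    intro i
    have := R.prod i
    simp only [(triv i).1, (triv i).2, one_mul] at this
    exact this
  have tor : ∀ {y z : H} {k l : ℕ}, 0 < k → y ^ k = z ^ l → z = 1 → y = 1 := by
    intro y z k l hk h hz
    apply eq_one_of_zpow hinv (q := (k : ℤ)) (Int.natCast_ne_zero.mpr hk.ne')
    rw [zpow_natCast, h, hz, one_pow]
  refine hom_trivial_of hn hs (ι := Fin 5) ![X, V, F, E, K] ?_ d ds ?_ φ ?_ g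
  · intro L k1 k2
    exact hgen L k1 (k2 0) (k2 1) (k2 2) (k2 3) (k2 4)
  · intro t
    fin_cases t
    · exact dX
    · exact dV
    · exact dF
    · exact dE
    · exact dK
  · intro t i
    fin_cases t
    · exact (triv i).1
    · exact (triv i).2
    · exact tor (hb 0 i) (h0 i) (triv i).1
    · exact tor (hb 1 i) (h1 i) (triv i).2
    · exact tor (hb 2 i) (h2 i) (hw i)

end Pool.Agent.X315.LS
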