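import Pool.Agent.X315.LS.Gen

set_option autoImplicit false

/-!
# Surgeries on the lifts of the circle around the second column of P(3, -1, 3)
-/

namespace Pool.Agent.X315.LS

open Pool.Agent.TH821.Cyc Pool.Agent.TH821.Hex

variable {G : Type*} [Group G] {n : ℕ}

/-- Homomorphisms from the kernel to a left-ordered group that satisfy the filling relations
are trivial. -/
theorem neg_hom (hn : 0 < n) {s X V Q : G} (hs : s ^ n = 1)
    (hgen : ∀ K : Subgroup G, s ∈ K → X ∈ K → V ∈ K → Q ∈ K → K = ⊤)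
    (d : G →* Multiplicative (ZMod n)) (ds : d s = Multiplicative.ofAdd 1) (dX : d X = 1)
    (dV : d V = 1) (dQ : d Q = 1) (hQ : V * Q = Q * V)
    (A : s * (X * X * V * Q) * s⁻¹ = X * X * V * Q * (X * V)⁻¹)
    (B : s * (Q⁻¹ * (X * V)) * s⁻¹ = X * Q⁻¹ * (X * V))
    {H : Type*} [Group H] [LinearOrder H] (hinv : ∀ a b c : H, a ≤ b ↔ c * a ≤ c * b)
    (φ : d.ker →* H) (a b : ZMod n → ℕ) (hb : ∀ i, 0 < b i) (hab : ∀ i, b i ≤ a i)
    (hφ : ∀ i, φ (ck d s i ⟨Q, dQ⟩) ^ b i = φ (ck d s i ⟨V, dV⟩) ^ a i)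
    (g : d.ker) : φ g = 1 := by
  set x : ZMod n → H := fun i => φ (ck d s i ⟨X, dX⟩) with hx
  set v : ZMod n → H := fun i => φ (ck d s i ⟨V, dV⟩) with hv
  set u : ZMod n → H := fun i => φ (ck d s i ⟨Q, dQ⟩) with hu
  have R : Pool.Agent.TH821.Neg.NRel x v (fun i => (x i * v i)⁻¹) u a b := by
    refine ⟨?_, ?_, hb, hab, hφ, ?_, ?_⟩
    · intro i; exact mul_inv_cancel _
    · intro i
      simp only [hv, hu, ← map_mul]
      congr 2
      exact Subtype.ext hQ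
    · intro i
      have := ck_shift hn hs d i (⟨X, dX⟩ * ⟨X, dX⟩ * ⟨V, dV⟩ * ⟨Q, dQ⟩)
        (⟨X, dX⟩ * ⟨X, dX⟩ * ⟨V, dV⟩ * ⟨Q, dQ⟩ * (⟨X, dX⟩ * ⟨V, dV⟩)⁻¹) A
      have := congrArg φ this
      simpa only [map_mul, map_inv] using this
    · intro i
      have := ck_shift hn hs d i (⟨Q, dQ⟩⁻¹ * (⟨X, dX⟩ * ⟨V, dV⟩))
        (⟨X, dX⟩ * ⟨Q, dQ⟩⁻¹ * (⟨X, dX⟩ * ⟨V, dV⟩)) B
      have := congrArg φ this
      simpa only [map_mul, map_inv, inv_inv] using this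
  have triv := fun i => Pool.Agent.TH821.Neg.rel_trivial hinv hn R i
  have hui : ∀ i, u i = 1 := by
    intro i
    apply eq_one_of_zpow hinv (q := (b i : ℤ)) (Int.natCast_ne_zero.mpr (hb i).ne')
    have h1 := hφ i
    rw [zpow_natCast]
    have h2 : φ (ck d s i ⟨V, dV⟩) = 1 := (triv i).2
    rw [h2, one_pow] at h1
    exact h1
  refine hom_trivial_of hn hs (ι := Fin 3) ![X, V, Q] ?_ d ds ?_ φ ?_ g
  · intro K h1 h2
    exact hgen K h1 (h2 0) (h2 1) (h2 2)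
  · intro t
    fin_cases t
    · exact dX
    · exact dV
    · exact dQ
  · intro t i
    fin_cases t
    · exact (triv i).1
    · exact (triv i).2
    · exact hui i

end Pool.Agent.X315.LS
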